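import Pool.Agent.X192.QH.Basic

/-!
# MP_377342_al, Q1: extending `A`-invariant `HA`-neutral subspaces

For quaternion matrices `H` (invertible, skewhermitian) and `A` (`H`-Hamiltonian), every
`A`-invariant `HA`-neutral subspace is contained in an `A`-invariant maximal `HA`-nonnegative
subspace and in an `A`-invariant maximal `HA`-nonpositive subspace.
-/

set_option autoImplicit false

open Matrix Quaternion

namespace Pool.Agent.Results.MP_377342_al.ExtendNeutral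

/-- Right subspaces of the right quaternion vector space `ℍⁿ`. -/
abbrev Sub (n : ℕ) : Type := Submodule (ℍ[ℝ])ᵐᵒᵖ (Fin n → ℍ[ℝ])

/-- `x* G y`. -/
noncomputable def form {n : ℕ} (G : Matrix (Fin n) (Fin n) ℍ[ℝ]) (x y : Fin n → ℍ[ℝ]) : ℍ[ℝ] :=
  star x ⬝ᵥ (G *ᵥ y)

/-- `L` is `A`-invariant. -/
def Invariant {n : ℕ} (A : Matrix (Fin n) (Fin n) ℍ[ℝ]) (L : Sub n) : Prop :=
  ∀ x ∈ L, A *ᵥ x ∈ L

/-- `L` is `G`-neutral: `x* G y = 0` for all `x, y ∈ L`. -/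
def Neutral {n : ℕ} (G : Matrix (Fin n) (Fin n) ℍ[ℝ]) (L : Sub n) : Prop :=
  ∀ x ∈ L, ∀ y ∈ L, form G x y = 0

/-- `L` is `G`-nonnegative: for every `x ∈ L`, `x* G x` is a real number `≥ 0`. -/
def Nonnegative {n : ℕ} (G : Matrix (Fin n) (Fin n) ℍ[ℝ]) (L : Sub n) : Prop :=
  ∀ x ∈ L, ∃ r : ℝ, 0 ≤ r ∧ form G x x = (r : ℍ[ℝ])

/-- `L` is `G`-nonpositive: for every `x ∈ L`, `x* G x` is a real number `≤ 0`. -/
def Nonpositive {n : ℕ} (G : Matrix (Fin n) (Fin n) ℍ[ℝ]) (L : Sub n) : Prop :=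
  ∀ x ∈ L, ∃ r : ℝ, r ≤ 0 ∧ form G x x = (r : ℍ[ℝ])

/-- `L` is a maximal subspace with the property `P`. -/
def IsMaximalSub {n : ℕ} (P : Sub n → Prop) (L : Sub n) : Prop :=
  P L ∧ ∀ M : Sub n, P M → L ≤ M → M = L

theorem nonneg_iff {n : ℕ} {G : Matrix (Fin n) (Fin n) ℍ[ℝ]} (hG : Gᴴ = G) (L : Sub n) :
    Nonnegative G L ↔ Pool.Agent.X192.QH.Nonneg G L := by
  constructor
  · intro h x hx
    obtain ⟨r, hr, h2⟩ := h x hx
    show 0 ≤ (form G x x).re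
    rw [h2, Quaternion.re_coe]
    exact hr
  · intro h x hx
    exact ⟨_, h x hx, Pool.Agent.X192.QH.g_self_eq hG x⟩

theorem nonpos_iff {n : ℕ} {G : Matrix (Fin n) (Fin n) ℍ[ℝ]} (hG : Gᴴ = G) (L : Sub n) :
    Nonpositive G L ↔ Pool.Agent.X192.QH.Nonneg (-G) L := by
  constructor
  · intro h x hx
    obtain ⟨r, hr, h2⟩ := h x hx
    rw [Pool.Agent.X192.QH.g_neg, Quaternion.re_neg]
    show 0 ≤ - (form G x x).re
    rw [h2, Quaternion.re_coe]
    linarith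
  · intro h x hx
    have h1 := h x hx
    rw [Pool.Agent.X192.QH.g_neg, Quaternion.re_neg] at h1
    exact ⟨_, by linarith, Pool.Agent.X192.QH.g_self_eq hG x⟩

/-- **Q1, affirmative answer.** Let `H` be an invertible skewhermitian quaternion matrix and `A` an
`H`-Hamiltonian matrix. Every `A`-invariant `HA`-neutral subspace `N` is contained in an
`A`-invariant maximal `HA`-nonnegative subspace and in an `A`-invariant maximal `HA`-nonpositive
subspace. -/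
theorem result (n : ℕ) (H A : Matrix (Fin n) (Fin n) ℍ[ℝ]) (_hH : IsUnit H) (hH' : Hᴴ = -H)
    (hA : H * A = -(Aᴴ * H)) (N : Sub n) (hNi : Invariant A N) (hN : Neutral (H * A) N) :
    (∃ L : Sub n, N ≤ L ∧ Invariant A L ∧ IsMaximalSub (Nonnegative (H * A)) L) ∧
    (∃ L : Sub n, N ≤ L ∧ Invariant A L ∧ IsMaximalSub (Nonpositive (H * A)) L) := by
  have hG : (H * A)ᴴ = H * A := by
    rw [Matrix.conjTranspose_mul, hH', Matrix.mul_neg, ← hA]
  have hGA : (H * A) * A = -(Aᴴ * (H * A)) := by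
    conv_lhs => rw [hA]
    rw [Matrix.neg_mul, Matrix.mul_assoc]
  have hG' : (-(H * A))ᴴ = -(H * A) := by rw [Matrix.conjTranspose_neg, hG]
  have hGA' : (-(H * A)) * A = -(Aᴴ * (-(H * A))) := by
    rw [Matrix.neg_mul, Matrix.mul_neg, hGA]
  refine ⟨?_, ?_⟩
  · obtain ⟨L, h1, h2, h3, h4⟩ := Pool.Agent.X192.QH.main hG hGA (N₀ := N) hNi hN
    refine ⟨L, h1, h2, (nonneg_iff hG L).mpr h3, fun M hM hLM => ?_⟩
    exact h4 M ((nonneg_iff hG M).mp hM) hLM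
  · have hN' : Pool.Agent.X192.QH.Neutral (H * A) N := hN
    obtain ⟨L, h1, h2, h3, h4⟩ := Pool.Agent.X192.QH.main hG' hGA' (N₀ := N) hNi hN'.neg
    refine ⟨L, h1, h2, (nonpos_iff hG L).mpr h3, fun M hM hLM => ?_⟩
    exact h4 M ((nonpos_iff hG M).mp hM) hLM

end Pool.Agent.Results.MP_377342_al.ExtendNeutral
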